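import Pool.Statements.S11006
import Pool.Agent.Zk79.H24

set_option autoImplicit false
open scoped Pointwise
open Pool Pool.MP_b7cbb2_co

namespace Pool.Agent.S11006

open Pool.Agent.Zk79.H24

/-- the matrices of the action of the group of order three -/
def M : ZMod 3 → Matrix (Fin 3) (Fin 3) ℤ :=
  ![!![1,0,0;0,1,0;0,0,1], !![0,0,1;1,0,0;0,1,0], !![0,1,0;0,0,1;1,0,0]]

lemma M_zero : M 0 = 1 := by decide

lemma M_add (a b : ZMod 3) : M (a + b) = M a * M b := by
  revert a b; decide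

/-- the action -/
def rho : Multiplicative (ZMod 3) →* Matrix.GeneralLinearGroup (Fin 3) ℤ :=
  MonoidHom.toHomUnits
    { toFun := fun g => M g.toAdd
      map_one' := M_zero
      map_mul' := fun a b => M_add _ _ }

lemma rho_coe (g : Multiplicative (ZMod 3)) :
    (rho g : Matrix (Fin 3) (Fin 3) ℤ) = M g.toAdd := rfl

lemma V_inv (g : ZMod 3) : ∀ v ∈ V, Matrix.mulVec (M g) v ∈ V := by
  revert g; decide

lemma vs_top : vectorSpan ℝ P = ⊤ := by
  have h : ∀ u v : Fin 3 → ℤ, u ∈ V → v ∈ V → toR u - toR v ∈ vectorSpan ℝ P := by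
    intro u v hu hv
    exact vsub_mem_vectorSpan ℝ (mem_P_of_V hu) (mem_P_of_V hv)
  have e0 : toR ![1,1,0] - toR ![0,1,0] ∈ vectorSpan ℝ P := h _ _ (by decide) (by decide)
  have e1 : toR ![1,1,0] - toR ![1,0,0] ∈ vectorSpan ℝ P := h _ _ (by decide) (by decide)
  have e2 : toR ![1,0,1] - toR ![1,0,0] ∈ vectorSpan ℝ P := h _ _ (by decide) (by decide)
  rw [eq_top_iff]
  intro x _
  have : x = x 0 • (toR ![1,1,0] - toR ![0,1,0]) + x 1 • (toR ![1,1,0] - toR ![1,0,0])
      + x 2 • (toR ![1,0,1] - toR ![1,0,0]) := by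
    funext j
    fin_cases j <;> simp [toR]
  rw [this]
  exact Submodule.add_mem _ (Submodule.add_mem _ (Submodule.smul_mem _ _ e0)
    (Submodule.smul_mem _ _ e1)) (Submodule.smul_mem _ _ e2)

/-- counting function at the identity -/
lemma count_one (m : ℕ) :
    3 * (((Set.ncard {x : Fin 3 → ℤ |
              (fun j => ((x j : ℤ) : ℝ)) ∈ (m : ℝ) • P ∧
              Matrix.mulVec (M 0) x = x} : ℕ) : ℤ)) = ((m : ℤ) + 1) * (2 * m ^ 2 + 4 * m + 3) := by
  rw [← S_card_formula, ← ncard_one]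
  congr 3
  ext x
  simp [M_zero]

lemma fix_one (x : Fin 3 → ℤ) : Matrix.mulVec (M 1) x = x ↔ x 0 = x 1 ∧ x 1 = x 2 := by
  have hM : M 1 = !![0,0,1;1,0,0;0,1,0] := by decide
  rw [hM]
  constructor
  · intro h
    have h0 := congrFun h 0
    have h1 := congrFun h 1
    have h2 := congrFun h 2
    simp [Matrix.mulVec, dotProduct, Fin.sum_univ_succ] at h0 h1 h2
    omega
  · rintro ⟨h1, h2⟩
    funext j
    fin_cases j <;> simp [Matrix.mulVec, dotProduct, Fin.sum_univ_succ] <;> omega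

lemma fix_two (x : Fin 3 → ℤ) : Matrix.mulVec (M 2) x = x ↔ x 0 = x 1 ∧ x 1 = x 2 := by
  have hM : M 2 = !![0,1,0;0,0,1;1,0,0] := by decide
  rw [hM]
  constructor
  · intro h
    have h0 := congrFun h 0
    have h1 := congrFun h 1
    have h2 := congrFun h 2
    simp [Matrix.mulVec, dotProduct, Fin.sum_univ_succ] at h0 h1 h2
    omega
  · rintro ⟨h1, h2⟩
    funext j
    fin_cases j <;> simp [Matrix.mulVec, dotProduct, Fin.sum_univ_succ] <;> omega

lemma count_diag (m : ℕ) :
    (Set.ncard {x : Fin 3 → ℤ |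
              (fun j => ((x j : ℤ) : ℝ)) ∈ (m : ℝ) • P ∧
              (x 0 = x 1 ∧ x 1 = x 2)} : ℕ) = 2 * m / 3 + 1 - (m + 2) / 3 := by
  have hinj : Function.Injective (fun (a : ℕ) => (![(a : ℤ), (a : ℤ), (a : ℤ)] : Fin 3 → ℤ)) := by
    intro a b h
    have h0 := congrFun h 0
    simpa using h0
  have : {x : Fin 3 → ℤ |
              (fun j => ((x j : ℤ) : ℝ)) ∈ (m : ℝ) • P ∧
              (x 0 = x 1 ∧ x 1 = x 2)}
      = (fun (a : ℕ) => (![(a : ℤ), (a : ℤ), (a : ℤ)] : Fin 3 → ℤ)) ''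
        ((Finset.Icc ((m+2)/3) (2*m/3) : Finset ℕ) : Set ℕ) := by
    ext x
    simp only [Set.mem_ofPred_eq, Set.mem_image, Finset.mem_coe, Finset.mem_Icc]
    rw [mem_int]
    constructor
    · rintro ⟨⟨h1, h2, h3⟩, h4, h5⟩
      have h10 := h1 0
      refine ⟨(x 0).toNat, by omega, ?_⟩
      funext j
      fin_cases j <;> simp <;> omega
    · rintro ⟨a, h, rfl⟩
      refine ⟨⟨fun i => ?_, ?_, ?_⟩, by simp, by simp⟩
      · fin_cases i <;> simp <;> omega
      · simp; omega
      · simp; omega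
  rw [this, Set.ncard_image_of_injective _ hinj, Set.ncard_coe_finset, Nat.card_Icc]

open PowerSeries in
lemma series_one (f : ℕ → ℤ) (hf : ∀ m : ℕ, 3 * f m = ((m : ℤ) + 1) * (2 * m ^ 2 + 4 * m + 3)) :
    PowerSeries.mk f * (1 - X) * (1 - X) ^ 3 = 1 + 2 * X + X * X := by
  have hexp : PowerSeries.mk f * (1 - X) * (1 - X) ^ 3
      = PowerSeries.mk f - C (4 : ℤ) * (PowerSeries.mk f * X)
        + C (6 : ℤ) * (PowerSeries.mk f * X * X)
        - C (4 : ℤ) * (PowerSeries.mk f * X * X * X) + PowerSeries.mk f * X * X * X * X := by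
    have h4 : (C (4 : ℤ) : ℤ⟦X⟧) = 4 := by simp
    have h6 : (C (6 : ℤ) : ℤ⟦X⟧) = 6 := by simp
    rw [h4, h6]
    ring
  have h2X : (2 : ℤ⟦X⟧) * X = X + X := by ring
  rw [hexp, h2X]
  have h0 := hf 0
  have h1 := hf 1
  have h2 := hf 2
  have h3 := hf 3
  norm_num at h0 h1 h2 h3
  have e0 : f 0 = 1 := by omega
  have e1 : f 1 = 6 := by omega
  have e2 : f 2 = 19 := by omega
  have e3 : f 3 = 44 := by omega
  ext n
  rcases n with _ | _ | _ | _ | n
  · simp only [map_add, map_sub, coeff_C_mul, coeff_succ_mul_X, coeff_mk, coeff_zero_mul_X,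
      coeff_zero_X, coeff_one]
    simp [e0]
  · simp only [map_add, map_sub, coeff_C_mul, coeff_succ_mul_X, coeff_mk, coeff_zero_mul_X,
      coeff_zero_X, coeff_one, coeff_X]
    simp [e0, e1]
  · simp only [map_add, map_sub, coeff_C_mul, coeff_succ_mul_X, coeff_mk, coeff_zero_mul_X,
      coeff_zero_X, coeff_one, coeff_X]
    simp [e0, e1, e2]
  · simp only [map_add, map_sub, coeff_C_mul, coeff_succ_mul_X, coeff_mk, coeff_zero_mul_X,
      coeff_zero_X, coeff_one, coeff_X]
    simp [e0, e1, e2, e3]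
  · have a0 := hf n
    have a1 := hf (n+1)
    have a2 := hf (n+1+1)
    have a3 := hf (n+1+1+1)
    have a4 := hf (n+1+1+1+1)
    push_cast at a0 a1 a2 a3 a4
    simp only [map_add, map_sub, coeff_C_mul, coeff_succ_mul_X, coeff_mk, coeff_one, coeff_X]
    simp
    linarith [a0, a1, a2, a3, a4]

open PowerSeries in
lemma series_diag (f : ℕ → ℤ) (hf : ∀ m : ℕ, f m = ((2 * m / 3 + 1 - (m + 2) / 3 : ℕ) : ℤ)) :
    PowerSeries.mk f * (1 - X) * (1 - X ^ 3) = 1 - X + X * X := by
  have hexp : PowerSeries.mk f * (1 - X) * (1 - X ^ 3)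
      = PowerSeries.mk f - (PowerSeries.mk f * X)
        - (PowerSeries.mk f * X * X * X) + PowerSeries.mk f * X * X * X * X := by
    ring
  rw [hexp]
  ext n
  rcases n with _ | _ | _ | _ | n
  · simp [hf]
  · simp [coeff_succ_mul_X, hf, coeff_one, coeff_X]
  · simp [coeff_succ_mul_X, hf, coeff_one, coeff_X]
  · simp [coeff_succ_mul_X, hf, coeff_one, coeff_X]
  · simp [coeff_succ_mul_X, coeff_one, coeff_X]
    rw [hf n, hf (n+1), hf (n+1+1+1), hf (n+1+1+1+1)]
    obtain ⟨k, hk⟩ : ∃ k, n = 3 * k ∨ n = 3 * k + 1 ∨ n = 3 * k + 2 := ⟨n / 3, by omega⟩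
    rcases hk with rfl | rfl | rfl <;> omega

lemma det_zero : ((Matrix.det (1 - (Polynomial.X : Polynomial ℤ) •
              (M 0).map Polynomial.C) : Polynomial ℤ) : PowerSeries ℤ)
    = (1 - PowerSeries.X) ^ 3 := by
  have : Matrix.det (1 - (Polynomial.X : Polynomial ℤ) • (M 0).map Polynomial.C)
      = (1 - Polynomial.X) ^ 3 := by
    have hM : M 0 = !![1,0,0;0,1,0;0,0,1] := by decide
    rw [hM, Matrix.det_fin_three]
    simp
    ring
  rw [this]
  push_cast
  rfl

lemma det_one : ((Matrix.det (1 - (Polynomial.X : Polynomial ℤ) •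
              (M 1).map Polynomial.C) : Polynomial ℤ) : PowerSeries ℤ)
    = (1 - PowerSeries.X ^ 3) := by
  have : Matrix.det (1 - (Polynomial.X : Polynomial ℤ) • (M 1).map Polynomial.C)
      = (1 - Polynomial.X ^ 3) := by
    have hM : M 1 = !![0,0,1;1,0,0;0,1,0] := by decide
    rw [hM, Matrix.det_fin_three]
    simp
    ring
  rw [this]
  push_cast
  rfl

lemma det_two : ((Matrix.det (1 - (Polynomial.X : Polynomial ℤ) •
              (M 2).map Polynomial.C) : Polynomial ℤ) : PowerSeries ℤ)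
    = (1 - PowerSeries.X ^ 3) := by
  have : Matrix.det (1 - (Polynomial.X : Polynomial ℤ) • (M 2).map Polynomial.C)
      = (1 - Polynomial.X ^ 3) := by
    have hM : M 2 = !![0,1,0;0,0,1;1,0,0] := by decide
    rw [hM, Matrix.det_fin_three]
    simp
    ring
  rw [this]
  push_cast
  rfl

/-- the equivariant h-star series -/
noncomputable def Phi (g : ZMod 3) : PowerSeries ℤ :=
  PowerSeries.mk (fun m : ℕ =>
          ((Set.ncard {x : Fin 3 → ℤ |
              (fun j => ((x j : ℤ) : ℝ)) ∈ (m : ℝ) • P ∧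
              Matrix.mulVec (M g) x = x} : ℕ) : ℤ))
        * (1 - PowerSeries.X)
        * ((Matrix.det (1 - (Polynomial.X : Polynomial ℤ) •
              (M g).map Polynomial.C) : Polynomial ℤ) : PowerSeries ℤ)

lemma Phi_zero : Phi 0 = 1 + 2 * PowerSeries.X + PowerSeries.X * PowerSeries.X := by
  rw [Phi, det_zero]
  exact series_one _ count_one

lemma Phi_one : Phi 1 = 1 - PowerSeries.X + PowerSeries.X * PowerSeries.X := by
  rw [Phi, det_one]
  apply series_diag
  intro m
  rw [← count_diag]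
  simp only [fix_one]

lemma Phi_two : Phi 2 = 1 - PowerSeries.X + PowerSeries.X * PowerSeries.X := by
  rw [Phi, det_two]
  apply series_diag
  intro m
  rw [← count_diag]
  simp only [fix_two]

/-- The negation of the preceding statement: For any finite group acting linearly on Z^n and invariant lattice polytope P whose equivariant h*-series is a polynomial, every coefficient with positive h*_i has nonzero sum over the group, i.e. contains the trivial representation. -/
theorem result :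
    ¬ (∀ (G : Type) [Group G] [Fintype G] (n : ℕ)
      (ρ : G →* Matrix.GeneralLinearGroup (Fin n) ℤ)
      (V : Finset (Fin n → ℤ)) (P : Set (Fin n → ℝ)),
      V.Nonempty →
      (∀ g : G, ∀ v ∈ V,
        Matrix.mulVec (ρ g : Matrix (Fin n) (Fin n) ℤ) v ∈ V) →
      P = convexHull ℝ
        ((fun v : Fin n → ℤ => fun j => ((v j : ℤ) : ℝ)) '' (V : Set (Fin n → ℤ))) →
      ∀ (d : ℕ) (ι : (Fin d → ℤ) →ₗ[ℤ] (Fin n → ℤ))
        (σ : G → Matrix (Fin d) (Fin d) ℤ) (Φ : G → PowerSeries ℤ),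
      Function.Injective ι →
      (∀ x : Fin n → ℤ,
        (∃ y : Fin d → ℤ, ι y = x) ↔
          (fun j => ((x j : ℤ) : ℝ)) ∈ vectorSpan ℝ P) →
      (∀ (g : G) (y : Fin d → ℤ),
        ι (Matrix.mulVec (σ g) y) =
          Matrix.mulVec (ρ g : Matrix (Fin n) (Fin n) ℤ) (ι y)) →
      (∀ g : G, Φ g =
        PowerSeries.mk (fun m : ℕ =>
          ((Set.ncard {x : Fin n → ℤ |
              (fun j => ((x j : ℤ) : ℝ)) ∈ (m : ℝ) • P ∧
              Matrix.mulVec (ρ g : Matrix (Fin n) (Fin n) ℤ) x = x} : ℕ) : ℤ))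
        * (1 - PowerSeries.X)
        * ((Matrix.det (1 - (Polynomial.X : Polynomial ℤ) •
              (σ g).map Polynomial.C) : Polynomial ℤ) : PowerSeries ℤ)) →
      (∃ N : ℕ, ∀ g : G, ∀ i : ℕ, N ≤ i →
        PowerSeries.coeff (R := ℤ) i (Φ g) = 0) →
      ∀ i : ℕ, 0 < PowerSeries.coeff (R := ℤ) i (Φ 1) →
        (∑ g : G, PowerSeries.coeff (R := ℤ) i (Φ g)) ≠ 0) := by
  intro H
  have key := H (Multiplicative (ZMod 3)) 3 rho V P (by decide)
    (fun g v hv => V_inv g.toAdd v hv) rfl 3 LinearMap.id (fun g => M g.toAdd)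
    (fun g => Phi g.toAdd) Function.injective_id
    (fun x => by
      rw [vs_top]
      simp)
    (fun g y => rfl) (fun g => rfl)
    ⟨3, by
      intro g i hi
      obtain ⟨k, rfl⟩ : ∃ k, i = k + 3 := ⟨i - 3, by omega⟩
      have hg : g.toAdd = 0 ∨ g.toAdd = 1 ∨ g.toAdd = 2 := by
        generalize g.toAdd = z
        revert z; decide
      have h2 : (2 : PowerSeries ℤ) * PowerSeries.X = PowerSeries.X + PowerSeries.X := by ring
      rcases hg with h | h | h
      · rw [h, Phi_zero, h2]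
        simp [PowerSeries.coeff_one, PowerSeries.coeff_X, PowerSeries.coeff_succ_mul_X]
      · rw [h, Phi_one]
        simp [PowerSeries.coeff_one, PowerSeries.coeff_X, PowerSeries.coeff_succ_mul_X]
      · rw [h, Phi_two]
        simp [PowerSeries.coeff_one, PowerSeries.coeff_X, PowerSeries.coeff_succ_mul_X]⟩
    1 (by
      show 0 < PowerSeries.coeff (R := ℤ) 1 (Phi 0)
      have h2 : (2 : PowerSeries ℤ) * PowerSeries.X = PowerSeries.X + PowerSeries.X := by ring
      rw [Phi_zero, h2]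
      simp [PowerSeries.coeff_one, PowerSeries.coeff_X, PowerSeries.coeff_succ_mul_X])
  apply key
  have hsum : ∑ g : Multiplicative (ZMod 3), PowerSeries.coeff (R := ℤ) 1 (Phi g.toAdd)
      = ∑ z : ZMod 3, PowerSeries.coeff (R := ℤ) 1 (Phi z) :=
    Fintype.sum_equiv Multiplicative.toAdd _ _ (fun _ => rfl)
  rw [hsum]
  have hs3 : ∑ z : ZMod 3, PowerSeries.coeff (R := ℤ) 1 (Phi z)
      = PowerSeries.coeff (R := ℤ) 1 (Phi 0) + PowerSeries.coeff (R := ℤ) 1 (Phi 1)
        + PowerSeries.coeff (R := ℤ) 1 (Phi 2) := Fin.sum_univ_three _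
  rw [hs3, Phi_zero, Phi_one, Phi_two]
  have h2 : (2 : PowerSeries ℤ) * PowerSeries.X = PowerSeries.X + PowerSeries.X := by ring
  rw [h2]
  simp [PowerSeries.coeff_one, PowerSeries.coeff_X, PowerSeries.coeff_succ_mul_X]

end Pool.Agent.S11006
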